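import Pool.Agent.H334R2.CM.Defs
import Pool.Agent.H334R2.CM.S.CLIF
import Pool.Agent.H334R2.CM.S.CLIF2
import Pool.Agent.H334R2.CM.S.KPART
import Pool.Agent.H334R2.CM.S.NREP

/-! Project CM, task ASMH: assembly for the group `H = 11^{3+3} : PSL(2,7)`. -/

set_option autoImplicit false
open scoped Matrix MatrixGroups
universe u
namespace CM
namespace ASMH

lemma reindex {k A : Type u} [Field k] [Ring A] [Algebra k A] {ι ι' : Type} (C : Matrix ι ι ℕ)
    (h : IdemCartan k A C) (e : ι' ≃ ι) (C' : Matrix ι' ι' ℕ)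
    (hC : ∀ i j, C' i j = C (e i) (e j)) : IdemCartan k A C' := by
  obtain ⟨ε, h1, h2, h3⟩ := h
  refine ⟨fun i => ε (e i), fun i => h1 _, fun i j => ?_, ?_⟩
  · rw [hC, ← h2]
  · intro M _ _ hM
    obtain ⟨i, hi⟩ := h3 M hM
    exact ⟨e.symm i, by simpa using hi⟩

lemma cross {k A : Type u} [Field k] [Ring A] [Algebra k A] [FiniteDimensional k A]
    {F F' e e' : A} (he : e ∈ cor k F F) (he' : e' ∈ cor k F' F')
    (h : Module.finrank k (cor k F F') = 0) : Module.finrank k (cor k e e') = 0 := by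
  have hbot : cor k F F' = ⊥ := Submodule.finrank_eq_zero.mp h
  have hbot' : cor k e e' = ⊥ := by
    rw [Submodule.eq_bot_iff]
    intro x hx
    have hx' : x ∈ cor k F F' := by
      refine ⟨?_, ?_⟩
      · rw [← hx.1, ← mul_assoc, he.1]
      · rw [← hx.2, mul_assoc, he'.2]
    rw [hbot] at hx'
    exact (Submodule.mem_bot k).mp hx'
  rw [hbot']
  exact finrank_bot k A

abbrev B3 : Type := Fin 1 ⊕ (Fin 60 × Fin 3) ⊕ Fin 60

lemma exists_equiv : Nonempty (Fin 241 ≃ B3) :=
  Fintype.card_eq.mp (by simp [B3])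

end ASMH

open ASMH

/-- the Cartan matrix of `H = 11^{3+3} : PSL(2,7)` in characteristic 2 -/
theorem ASMH {k : Type u} [Field k] [IsAlgClosed k] [CharP k 2] {K : Type} [Group K] [Finite K]
    (ρ : K →* SL(3, ZMod 11)) (h : Nonempty (OD (labAct.comp ρ) {x | x ≠ Sum.inl 0} (Fin 60)))
    (hK : IdemCartan k (MonoidAlgebra k K) (Cm (Fin 0) (Fin 1))) :
    IdemCartan k (MonoidAlgebra k (NN ⋊[actN.comp ρ] K)) (Cm (Fin 60) (Fin 241)) := by
  classical
  obtain ⟨o⟩ := h
  obtain ⟨z, f, hB, hz0, hx0⟩ := NREP (k := k) ρ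
  obtain ⟨εK, hKloc, hKrank, hKfull⟩ := hK
  set φ : K →* MulAut NN := actN.comp ρ with hφ
  set a : K →* Equiv.Perm Lab := labAct.comp ρ with ha
  have hl0 : ∀ g, a g (Sum.inl 0) = Sum.inl 0 := by
    intro g
    change labAct (ρ g) (Sum.inl 0) = Sum.inl 0
    have : labAct (ρ g) (Sum.inl 0) = Sum.inl (dualAct (ρ g) 0) := rfl
    rw [this, dualAct_apply, Matrix.mulVec_zero]
  haveI hfin : Finite (NN ⋊[φ] K) :=
    Finite.of_injective (fun x => (x.left, x.right)) (by
      intro x y hxy
      simp only [Prod.mk.injEq] at hxy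
      exact SemidirectProduct.ext hxy.1 hxy.2)
  haveI hfd : FiniteDimensional k (MonoidAlgebra k (NN ⋊[φ] K)) := inferInstance
  obtain ⟨kp1, kp2, kp3, kp4⟩ := KPART hB (Sum.inl 0) hz0 hx0 hl0
  -- the pieces
  have c4 : ∀ j, IsLoc k (inN φ (f (o.r4 j))) ∧
      Module.finrank k (cor k (inN φ (f (o.r4 j))) (inN φ (f (o.r4 j)))) = 4 := by
    intro j
    obtain ⟨u, hu, hs⟩ := o.s4 j
    exact CLIF_four hB _ u hu hs
  have c3 : ∀ j, ∃ e : Fin 3 → MonoidAlgebra k (NN ⋊[φ] K), (∀ i, IsLoc k (e i)) ∧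
      (∀ i j, Module.finrank k (cor k (e i) (e j)) = if i = j then 1 else 0) ∧
      (∀ i, e i ∈ cor k (inN φ (f (o.r3 j))) (inN φ (f (o.r3 j)))) ∧
      ∑ i, e i = inN φ (f (o.r3 j)) := by
    intro j
    obtain ⟨u, hu, hs⟩ := o.s3 j
    exact CLIF_three hB _ u hu hs
  choose e3 he31 he32 he33 he34 using c3
  have c1 : ∀ j, IsLoc k (inN φ (f (o.r1 j))) ∧
      Module.finrank k (cor k (inN φ (f (o.r1 j))) (inN φ (f (o.r1 j)))) = 1 := by
    intro j
    exact CLIF_one hB _ (o.s1 j)
  have hself : ∀ l, inN φ (f l) ∈ cor k (inN φ (f l)) (inN φ (f l)) := by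
    intro l
    have h1 : inN φ (f l) * inN φ (f l) = inN φ (f l) := by
      have h2 : inN φ (f l * f l) = inN φ (f l) * inN φ (f l) :=
        MonoidAlgebra.mapDomain_mul _ _ _
      rw [← h2, hB.hf]
    exact ⟨h1, h1⟩
  -- orbits
  have hsymm : ∀ l l' : Lab, (∀ g, a g l ≠ l') → (∀ g, a g l' ≠ l) := by
    intro l l' hll g hg
    apply hll g⁻¹
    rw [← hg, ← Equiv.Perm.mul_apply, ← map_mul, inv_mul_cancel, map_one, Equiv.Perm.one_apply]
  have n04 : ∀ j g, a g (Sum.inl 0) ≠ o.r4 j := by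
    intro j g hg
    rw [hl0] at hg
    exact o.m4 j hg.symm
  have n03 : ∀ j g, a g (Sum.inl 0) ≠ o.r3 j := by
    intro j g hg
    rw [hl0] at hg
    exact o.m3 j hg.symm
  have n01 : ∀ j g, a g (Sum.inl 0) ≠ o.r1 j := by
    intro j g hg
    rw [hl0] at hg
    exact o.m1 j hg.symm
  have hcr : ∀ (l l' : Lab) (e e' : MonoidAlgebra k (NN ⋊[φ] K)),
      e ∈ cor k (inN φ (f l)) (inN φ (f l)) → e' ∈ cor k (inN φ (f l')) (inN φ (f l')) →
      (∀ g, a g l ≠ l') → Module.finrank k (cor k e e') = 0 := by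
    intro l l' e e' he he' hll
    exact cross he he' (CLIF_orth hB l l' hll)
  have hidK : ∀ i, εK i * εK i = εK i := fun i => (hKloc i).2.1
  -- intermediate statement
  have main : IdemCartan k (MonoidAlgebra k (NN ⋊[φ] K)) (Cm (Fin 60) B3) := by
    refine ⟨fun i => match i with
      | .inl i => inN φ (f (Sum.inl 0)) * inK φ (εK (Sum.inl i))
      | .inr (.inl j) => inN φ (f (o.r4 j))
      | .inr (.inr (.inl _)) => inN φ (f (Sum.inl 0)) * inK φ (εK (Sum.inr (Sum.inr 0)))
      | .inr (.inr (.inr (.inl (j, i)))) => e3 j i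
      | .inr (.inr (.inr (.inr j))) => inN φ (f (o.r1 j)), ?_, ?_, ?_⟩
    · rintro (i | j | i | ⟨j, i⟩ | j)
      · exact kp1 _ (hKloc _)
      · exact (c4 j).1
      · exact kp1 _ (hKloc _)
      · exact he31 j i
      · exact (c1 j).1
    · rintro (i | j | i | ⟨j, i⟩ | j) (i' | j' | i' | ⟨j', i'⟩ | j')
      -- row K3
      · refine (kp2 _ _ (hidK _) (hidK _)).trans ?_
        rw [hKrank]
        rfl
      · refine (hcr (o.r4 j') (Sum.inl 0) _ _ (hself _) (kp3 _) (hsymm _ _ (n04 j'))).trans ?_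
        rfl
      · refine (kp2 _ _ (hidK _) (hidK _)).trans ?_
        rw [hKrank]
        rfl
      · refine (hcr (o.r3 j') (Sum.inl 0) _ _ (he33 j' i') (kp3 _)
          (hsymm _ _ (n03 j'))).trans ?_
        rfl
      · refine (hcr (o.r1 j') (Sum.inl 0) _ _ (hself _) (kp3 _) (hsymm _ _ (n01 j'))).trans ?_
        rfl
      -- row r4
      · refine (hcr (Sum.inl 0) (o.r4 j) _ _ (kp3 _) (hself _) (n04 j)).trans ?_
        rfl
      · change Module.finrank k (cor k (inN φ (f (o.r4 j'))) (inN φ (f (o.r4 j))))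
          = if j = j' then 4 else 0
        by_cases hj : j = j'
        · subst hj
          rw [if_pos rfl]
          exact (c4 j).2
        · rw [if_neg hj]
          exact hcr _ _ _ _ (hself _) (hself _) (fun g hg => hj (o.d44 _ _ g hg).symm)
      · refine (hcr (Sum.inl 0) (o.r4 j) _ _ (kp3 _) (hself _) (n04 j)).trans ?_
        rfl
      · refine (hcr (o.r3 j') (o.r4 j) _ _ (he33 j' i') (hself _)
          (hsymm _ _ (fun g => o.d43 j j' g))).trans ?_
        rfl
      · refine (hcr (o.r1 j') (o.r4 j) _ _ (hself _) (hself _)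
          (hsymm _ _ (fun g => o.d41 j j' g))).trans ?_
        rfl
      -- row K1
      · refine (kp2 _ _ (hidK _) (hidK _)).trans ?_
        rw [hKrank]
        rfl
      · refine (hcr (o.r4 j') (Sum.inl 0) _ _ (hself _) (kp3 _) (hsymm _ _ (n04 j'))).trans ?_
        rfl
      · refine (kp2 _ _ (hidK _) (hidK _)).trans ?_
        rw [hKrank]
        have : i = i' := Subsingleton.elim _ _
        subst this
        change (if (0 : Fin 1) = 0 then 1 else 0)
          = if (Sum.inl i : B3) = Sum.inl i then 1 else 0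
        rw [if_pos rfl, if_pos rfl]
      · refine (hcr (o.r3 j') (Sum.inl 0) _ _ (he33 j' i') (kp3 _)
          (hsymm _ _ (n03 j'))).trans ?_
        change 0 = if (Sum.inl i : B3) = Sum.inr (Sum.inl (j', i')) then 1 else 0
        rw [if_neg (by simp)]
      · refine (hcr (o.r1 j') (Sum.inl 0) _ _ (hself _) (kp3 _) (hsymm _ _ (n01 j'))).trans ?_
        change 0 = if (Sum.inl i : B3) = Sum.inr (Sum.inr j') then 1 else 0
        rw [if_neg (by simp)]
      -- row r3
      · refine (hcr (Sum.inl 0) (o.r3 j) _ _ (kp3 _) (he33 j i) (n03 j)).trans ?_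
        rfl
      · refine (hcr (o.r4 j') (o.r3 j) _ _ (hself _) (he33 j i) (fun g => o.d43 j' j g)).trans ?_
        rfl
      · refine (hcr (Sum.inl 0) (o.r3 j) _ _ (kp3 _) (he33 j i) (n03 j)).trans ?_
        change 0 = if (Sum.inr (Sum.inl (j, i)) : B3) = Sum.inl i' then 1 else 0
        rw [if_neg (by simp)]
      · change Module.finrank k (cor k (e3 j' i') (e3 j i))
          = if (Sum.inr (Sum.inl (j, i)) : B3) = Sum.inr (Sum.inl (j', i')) then 1 else 0
        by_cases hj : j = j'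
        · subst hj
          rw [he32]
          by_cases hi : i = i'
          · subst hi
            rw [if_pos rfl, if_pos rfl]
          · rw [if_neg (fun h => hi h.symm), if_neg]
            intro h
            simp only [Sum.inr.injEq, Sum.inl.injEq, Prod.mk.injEq, true_and] at h
            exact hi h
        · rw [if_neg]
          · exact hcr _ _ _ _ (he33 j' i') (he33 j i) (fun g hg => hj (o.d33 _ _ g hg).symm)
          · intro h
            simp only [Sum.inr.injEq, Sum.inl.injEq, Prod.mk.injEq] at h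
            exact hj h.1
      · refine (hcr (o.r1 j') (o.r3 j) _ _ (hself _) (he33 j i)
          (hsymm _ _ (fun g => o.d31 j j' g))).trans ?_
        change 0 = if (Sum.inr (Sum.inl (j, i)) : B3) = Sum.inr (Sum.inr j') then 1 else 0
        rw [if_neg (by simp)]
      -- row r1
      · refine (hcr (Sum.inl 0) (o.r1 j) _ _ (kp3 _) (hself _) (n01 j)).trans ?_
        rfl
      · refine (hcr (o.r4 j') (o.r1 j) _ _ (hself _) (hself _) (fun g => o.d41 j' j g)).trans ?_
        rfl
      · refine (hcr (Sum.inl 0) (o.r1 j) _ _ (kp3 _) (hself _) (n01 j)).trans ?_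
        change 0 = if (Sum.inr (Sum.inr j) : B3) = Sum.inl i' then 1 else 0
        rw [if_neg (by simp)]
      · refine (hcr (o.r3 j') (o.r1 j) _ _ (he33 j' i') (hself _)
          (fun g => o.d31 j' j g)).trans ?_
        change 0 = if (Sum.inr (Sum.inr j) : B3) = Sum.inr (Sum.inl (j', i')) then 1 else 0
        rw [if_neg (by simp)]
      · change Module.finrank k (cor k (inN φ (f (o.r1 j'))) (inN φ (f (o.r1 j))))
          = if (Sum.inr (Sum.inr j) : B3) = Sum.inr (Sum.inr j') then 1 else 0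
        by_cases hj : j = j'
        · subst hj
          rw [if_pos rfl]
          exact (c1 j).2
        · rw [if_neg]
          · exact hcr _ _ _ _ (hself _) (hself _) (fun g hg => hj (o.d11 _ _ g hg).symm)
          · intro h
            simp only [Sum.inr.injEq] at h
            exact hj h
    · intro M _ _ hM
      let R : Set Lab := {l | l = Sum.inl 0 ∨ (∃ j, l = o.r4 j) ∨ (∃ j, l = o.r3 j) ∨
        ∃ j, l = o.r1 j}
      have hR : ∀ l, ∃ g, a g l ∈ R := by
        intro l
        by_cases hl : l = Sum.inl 0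
        · exact ⟨1, Or.inl (by rw [hl, hl0])⟩
        · obtain ⟨g, i, hgi⟩ := o.cover l hl
          have hinv : ∀ x, a g x = l → a g⁻¹ l = x := by
            intro x hx
            rw [← hx, ← Equiv.Perm.mul_apply, ← map_mul, inv_mul_cancel, map_one,
              Equiv.Perm.one_apply]
          refine ⟨g⁻¹, ?_⟩
          rcases hgi with hgi | hgi | hgi
          · exact Or.inr (Or.inl ⟨i, hinv _ hgi⟩)
          · exact Or.inr (Or.inr (Or.inl ⟨i, hinv _ hgi⟩))
          · exact Or.inr (Or.inr (Or.inr ⟨i, hinv _ hgi⟩))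
      obtain ⟨l, hl, m, hm⟩ := CLIF_full hB M hM R hR
      rcases hl with hl | ⟨j, hl⟩ | ⟨j, hl⟩ | ⟨j, hl⟩
      · subst hl
        obtain ⟨i, m', hm'⟩ := kp4 _ εK hKfull M hM ⟨m, hm⟩
        rcases i with i | i | i
        · exact ⟨Sum.inl i, m', hm'⟩
        · exact i.elim0
        · have : i = 0 := Subsingleton.elim _ _
          subst this
          exact ⟨Sum.inr (Sum.inr (Sum.inl 0)), m', hm'⟩
      · subst hl
        exact ⟨Sum.inr (Sum.inl j), m, hm⟩
      · subst hl
        rw [← he34 j, Finset.sum_smul] at hm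
        obtain ⟨i, _, hi⟩ := Finset.exists_ne_zero_of_sum_ne_zero hm
        exact ⟨Sum.inr (Sum.inr (Sum.inr (Sum.inl (j, i)))), m, hi⟩
      · subst hl
        exact ⟨Sum.inr (Sum.inr (Sum.inr (Sum.inr j))), m, hm⟩
  obtain ⟨E⟩ := exists_equiv
  refine reindex _ main (Equiv.sumCongr (Equiv.refl _) (Equiv.sumCongr (Equiv.refl _) E)) _ ?_
  rintro (i | i | i) (j | j | j)
  · rfl
  · rfl
  · rfl
  · rfl
  · rfl
  · rfl
  · rfl
  · rfl
  · change (if i = j then 1 else 0) = if E i = E j then 1 else 0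
    by_cases hij : i = j
    · subst hij
      simp
    · rw [if_neg hij, if_neg (fun h => hij (E.injective h))]

end CM
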