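import Pool.Agent.H334R2.CM.Defs

/-! Project CM, task CLIF: Clifford theory for `N : K`. -/

set_option autoImplicit false
set_option linter.unusedSectionVars false
open scoped Matrix MatrixGroups
universe u
namespace CM
namespace CLIF

section
variable {k : Type u} [Field k] {N K : Type} [Group N] [Group K] (φ : K →* MulAut N)

lemma inN_mul (x y : MonoidAlgebra k N) : inN φ (x * y) = inN φ x * inN φ y :=
  MonoidAlgebra.mapDomain_mul _ x y

lemma inN_add (x y : MonoidAlgebra k N) : inN φ (x + y) = inN φ x + inN φ y :=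
  MonoidAlgebra.mapDomain_add _ x y

lemma inN_zero : inN φ (0 : MonoidAlgebra k N) = 0 :=
  MonoidAlgebra.mapDomain_zero _

lemma inN_one : inN φ (1 : MonoidAlgebra k N) = 1 :=
  MonoidAlgebra.mapDomain_one (SemidirectProduct.inl : N →* N ⋊[φ] K)

lemma inN_single (n : N) (r : k) : inN φ (MonoidAlgebra.single n r)
    = MonoidAlgebra.single (SemidirectProduct.inl n : N ⋊[φ] K) r :=
  MonoidAlgebra.mapDomain_single

lemma inN_sum {ι : Type*} (s : Finset ι) (x : ι → MonoidAlgebra k N) :
    inN φ (∑ i ∈ s, x i) = ∑ i ∈ s, inN φ (x i) := by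
  classical
  induction s using Finset.induction_on with
  | empty => simp [inN_zero]
  | insert i s hi ih => rw [Finset.sum_insert hi, Finset.sum_insert hi, inN_add, ih]

lemma inN_smul (c : k) (x : MonoidAlgebra k N) : inN φ (c • x) = c • inN φ x := by
  induction x using MonoidAlgebra.induction_linear with
  | zero => rw [smul_zero, inN_zero, smul_zero]
  | add x y hx hy => rw [smul_add, inN_add, hx, hy, inN_add, smul_add]
  | single m r => rw [MonoidAlgebra.smul_single, inN_single, inN_single, MonoidAlgebra.smul_single]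

lemma inN_inj : Function.Injective (inN φ : MonoidAlgebra k N → _) :=
  MonoidAlgebra.mapDomain_injective SemidirectProduct.inl_injective

/-- the group element `g ∈ K` in `k (N ⋊ K)` -/
noncomputable def kap (k : Type u) [Field k] {N K : Type} [Group N] [Group K] (φ : K →* MulAut N)
    (g : K) : MonoidAlgebra k (N ⋊[φ] K) :=
  MonoidAlgebra.single (SemidirectProduct.inr g) 1

lemma kap_one : kap k φ 1 = 1 := by
  unfold kap
  rw [map_one, MonoidAlgebra.one_def]

lemma kap_mul_kap (g h : K) : kap k φ g * kap k φ h = kap k φ (g * h) := by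
  unfold kap
  rw [MonoidAlgebra.single_mul_single, ← map_mul, mul_one]

lemma kap_mul (g : K) (x : MonoidAlgebra k N) :
    kap k φ g * inN φ x = inN φ (MonoidAlgebra.mapDomain (φ g) x) * kap k φ g := by
  induction x using MonoidAlgebra.induction_linear with
  | zero => rw [inN_zero, mul_zero, MonoidAlgebra.mapDomain_zero, inN_zero, zero_mul]
  | add x y hx hy =>
    rw [inN_add, mul_add, hx, hy, MonoidAlgebra.mapDomain_add, inN_add, add_mul]
  | single n r =>
    rw [inN_single, MonoidAlgebra.mapDomain_single, inN_single]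
    unfold kap
    rw [MonoidAlgebra.single_mul_single, MonoidAlgebra.single_mul_single, one_mul, mul_one,
      SemidirectProduct.inl_aut]
    simp

lemma exists_rep [Fintype K] (y : MonoidAlgebra k (N ⋊[φ] K)) :
    ∃ Y : K → MonoidAlgebra k N, y = ∑ g, inN φ (Y g) * kap k φ g := by
  classical
  induction y using MonoidAlgebra.induction_linear with
  | zero => exact ⟨fun _ => 0, by simp [inN_zero]⟩
  | add x y hx hy =>
    obtain ⟨X, hX⟩ := hx
    obtain ⟨Y, hY⟩ := hy
    refine ⟨fun g => X g + Y g, ?_⟩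
    rw [hX, hY, ← Finset.sum_add_distrib]
    refine Finset.sum_congr rfl (fun g _ => ?_)
    rw [inN_add, add_mul]
  | single m r =>
    refine ⟨fun g => if g = m.right then MonoidAlgebra.single m.left r else 0, ?_⟩
    rw [Finset.sum_eq_single m.right]
    · simp only [if_true]
      rw [inN_single]
      unfold kap
      rw [MonoidAlgebra.single_mul_single, mul_one, SemidirectProduct.inl_left_mul_inr_right]
    · intro g _ hg
      simp [hg, inN_zero]
    · intro h
      exact absurd (Finset.mem_univ _) h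

lemma mapDomain_phi_mul (g : K) (x y : MonoidAlgebra k N) :
    MonoidAlgebra.mapDomain (φ g) (x * y)
      = MonoidAlgebra.mapDomain (φ g) x * MonoidAlgebra.mapDomain (φ g) y :=
  MonoidAlgebra.mapDomain_mul (φ g) x y

lemma mapDomain_one_apply (x : MonoidAlgebra k N) :
    MonoidAlgebra.mapDomain (φ 1) x = x := by
  induction x using MonoidAlgebra.induction_linear with
  | zero => rw [MonoidAlgebra.mapDomain_zero]
  | add x y hx hy => rw [MonoidAlgebra.mapDomain_add, hx, hy]
  | single n r => rw [MonoidAlgebra.mapDomain_single, map_one, MulAut.one_apply]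

variable {φ}
variable {L : Type} [Fintype L] [DecidableEq L] {a : K →* Equiv.Perm L}
  {z f : L → MonoidAlgebra k N}

/-- expansion of an element of the Peirce component `F_l A F_l'` -/
lemma cor_rep [Fintype K] (l l' : L)
    (y : MonoidAlgebra k (N ⋊[φ] K)) (hy : y ∈ cor k (inN φ (f l)) (inN φ (f l'))) :
    ∃ Y : K → MonoidAlgebra k N,
      y = ∑ g, inN φ (f l * Y g * MonoidAlgebra.mapDomain (φ g) (f l')) * kap k φ g := by
  obtain ⟨Y, hY⟩ := exists_rep φ y
  refine ⟨Y, ?_⟩
  have h1 : y = inN φ (f l) * y * inN φ (f l') := by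
    rw [hy.1, hy.2]
  rw [h1]
  conv_lhs => rw [hY]
  rw [Finset.mul_sum, Finset.sum_mul]
  refine Finset.sum_congr rfl (fun g _ => ?_)
  rw [inN_mul, inN_mul, mul_assoc, mul_assoc, kap_mul, mul_assoc, mul_assoc]

lemma block_zero (h : Blocks φ a z f) (l l' : L) (g : K) (hg : a g l' ≠ l)
    (x : MonoidAlgebra k N) : f l * x * MonoidAlgebra.mapDomain (φ g) (f l') = 0 := by
  have h1 : f l = f l * z l := by rw [← h.hzc, h.hzf]
  have h2 : MonoidAlgebra.mapDomain (φ g) (f l')
      = z (a g l') * MonoidAlgebra.mapDomain (φ g) (f l') := by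
    conv_lhs => rw [← h.hzf l', mapDomain_phi_mul, h.hφ]
  rw [h1, h2]
  have h3 : f l * z l * x * (z (a g l') * MonoidAlgebra.mapDomain (φ g) (f l'))
      = f l * (z l * z (a g l')) * x * MonoidAlgebra.mapDomain (φ g) (f l') := by
    have h4 := h.hzc (a g l') x
    calc f l * z l * x * (z (a g l') * MonoidAlgebra.mapDomain (φ g) (f l'))
        = f l * z l * (x * z (a g l')) * MonoidAlgebra.mapDomain (φ g) (f l') := by
          simp only [mul_assoc]
      _ = f l * z l * (z (a g l') * x) * MonoidAlgebra.mapDomain (φ g) (f l') := by rw [h4]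
      _ = _ := by simp only [mul_assoc]
  rw [h3, h.hz, if_neg (fun h => hg h.symm), mul_zero, zero_mul, zero_mul]

lemma inN_ne_zero (h : Blocks φ a z f) (l : L) : inN φ (f l) ≠ 0 := by
  intro h0
  exact h.hf0 l (inN_inj φ (h0.trans (inN_zero φ).symm))

end

end CLIF

section
variable {k : Type u} [Field k] {N K : Type} [Group N] [Group K] [Finite N] [Finite K]
  {φ : K →* MulAut N} {L : Type} [Fintype L] [DecidableEq L] {a : K →* Equiv.Perm L}
  {z f : L → MonoidAlgebra k N}

open CLIF

theorem CLIF_orth (h : Blocks φ a z f) (l l' : L) (hl : ∀ g, a g l ≠ l') :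
    Module.finrank k (cor k (inN φ (f l)) (inN φ (f l'))) = 0 := by
  cases nonempty_fintype K
  have hbot : cor k (inN φ (f l)) (inN φ (f l')) = ⊥ := by
    rw [Submodule.eq_bot_iff]
    intro y hy
    obtain ⟨Y, hY⟩ := cor_rep l l' y hy
    rw [hY]
    refine Finset.sum_eq_zero (fun g _ => ?_)
    rw [block_zero h l l' g, inN_zero, zero_mul]
    intro hg
    apply hl g⁻¹
    rw [← hg, ← Equiv.Perm.mul_apply, ← map_mul, inv_mul_cancel, map_one, Equiv.Perm.one_apply]
  rw [hbot]
  exact finrank_bot k _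

theorem CLIF_one (h : Blocks φ a z f) (l : L) (hl : ∀ g, a g l = l → g = 1) :
    IsLoc k (inN φ (f l)) ∧ Module.finrank k (cor k (inN φ (f l)) (inN φ (f l))) = 1 := by
  classical
  cases nonempty_fintype K
  have key : ∀ y ∈ cor k (inN φ (f l)) (inN φ (f l)), ∃ c : k, y = c • inN φ (f l) := by
    intro y hy
    obtain ⟨Y, hY⟩ := cor_rep l l y hy
    rw [Finset.sum_eq_single 1] at hY
    · obtain ⟨c, hc⟩ := h.hf1 l (Y 1)
      refine ⟨c, ?_⟩
      rw [hY, mapDomain_one_apply, hc, inN_smul, kap_one, mul_one]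
    · intro g _ hg
      rw [block_zero h l l g (fun h' => hg (hl g h')), inN_zero, zero_mul]
    · intro h'
      exact absurd (Finset.mem_univ _) h'
  have hid : inN φ (f l) * inN φ (f l) = inN φ (f l) := by
    rw [← inN_mul, h.hf]
  have hne : inN φ (f l) ≠ 0 := inN_ne_zero h l
  refine ⟨⟨hne, hid, ?_⟩, ?_⟩
  · intro x hx
    obtain ⟨c, hc⟩ := key x hx
    refine ⟨c, ?_⟩
    rw [hc, sub_self]
    exact IsNilpotent.zero
  · have hspan : cor k (inN φ (f l)) (inN φ (f l)) = Submodule.span k {inN φ (f l)} := by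
      apply le_antisymm
      · intro y hy
        obtain ⟨c, hc⟩ := key y hy
        rw [hc]
        exact Submodule.smul_mem _ _ (Submodule.mem_span_singleton_self _)
      · rw [Submodule.span_le, Set.singleton_subset_iff]
        exact ⟨hid, hid⟩
    rw [hspan]
    exact finrank_span_singleton hne

theorem CLIF_full (h : Blocks φ a z f) (M : Type u) [AddCommGroup M]
    [Module (MonoidAlgebra k (N ⋊[φ] K)) M] (hM : IsSimpleModule (MonoidAlgebra k (N ⋊[φ] K)) M)
    (R : Set L) (hR : ∀ l, ∃ g, a g l ∈ R) : ∃ l ∈ R, ∃ m : M, inN φ (f l) • m ≠ 0 := by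
  haveI : Nontrivial M := IsSimpleModule.nontrivial (MonoidAlgebra k (N ⋊[φ] K)) M
  obtain ⟨m, hm⟩ := exists_ne (0 : M)
  have h1 : ∃ l, inN φ (z l) • m ≠ 0 := by
    by_contra hcon
    push Not at hcon
    apply hm
    have : m = inN φ (∑ l, z l) • m := by
      rw [h.hz1, inN_one, one_smul]
    rw [this, inN_sum, Finset.sum_smul]
    exact Finset.sum_eq_zero (fun l _ => hcon l)
  obtain ⟨l, hl⟩ := h1
  obtain ⟨g, hg⟩ := hR l
  refine ⟨a g l, hg, ?_⟩
  have h2 : inN φ (z (a g l)) • (kap k φ g • m) ≠ 0 := by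
    intro h0
    apply hl
    have h3 : kap k φ g • (inN φ (z l) • m) = 0 := by
      rw [← mul_smul, kap_mul, h.hφ, mul_smul, h0]
    have h4 : kap k φ g⁻¹ • (kap k φ g • (inN φ (z l) • m)) = 0 := by
      rw [h3, smul_zero]
    rwa [← mul_smul, kap_mul_kap, inv_mul_cancel, kap_one, one_smul] at h4
  obtain ⟨n, x, y, hxy⟩ := h.hgen (a g l)
  by_contra hcon
  push Not at hcon
  apply h2
  rw [hxy, inN_sum, Finset.sum_smul]
  refine Finset.sum_eq_zero (fun i _ => ?_)
  rw [inN_mul, inN_mul, mul_smul, mul_smul, hcon, smul_zero]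

end

end CM
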